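import Mathlib
import Pool.Agent.H60.TrinOrder

open Polynomial in
/-- For every `r ≥ 1` the least positive `e` with `f ∣ 1 + x^e` is `4^r + 2^r + 1`, both for
`f = 1 + x + x^(2^r) + x^(2^r+2)` and for its reciprocal. -/
theorem Pool.Agent.Results.MP_9cbaed_nt.Order.result (r : ℕ) (hr : 1 ≤ r) :
    IsLeast {e : ℕ | 0 < e ∧ (1 + X + X ^ 2 ^ r + X ^ (2 ^ r + 2) : (ZMod 2)[X]) ∣ 1 + X ^ e}
      (4 ^ r + 2 ^ r + 1) ∧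
    IsLeast {e : ℕ | 0 < e ∧
      (1 + X ^ 2 + X ^ (2 ^ r + 1) + X ^ (2 ^ r + 2) : (ZMod 2)[X]) ∣ 1 + X ^ e}
      (4 ^ r + 2 ^ r + 1) :=
  ⟨Pool.Agent.H60.TrinOrder.order_f r hr, Pool.Agent.H60.TrinOrder.order_fR r hr⟩
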